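import Pool.Agent.Helper23.Riesz.Defs

/-!
# Riesz energy on spheres: module HAAR

Haar measure of the orthogonal group, uniqueness of the rotation invariant probability
measure on the sphere.
-/

set_option autoImplicit false
open MeasureTheory Set Filter Topology
open scoped ENNReal NNReal Pointwise

namespace Helper23.Riesz

theorem isProbabilityMeasure_sig (d : ℕ) : IsProbabilityMeasure (sig d) := by
  constructor
  rw [sig, Measure.smul_apply, smul_eq_mul]
  apply ENNReal.inv_mul_cancel
  · have := Measure.toSphere_ne_zero (volume : Measure (E d))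
    rwa [Ne, Measure.measure_univ_eq_zero]
  · exact measure_ne_top _ _

/-- the homeomorphism of the sphere given by a linear isometry -/
noncomputable def rotH {d : ℕ} (g : E d ≃ₗᵢ[ℝ] E d) : S d ≃ₜ S d where
  toFun := rot g
  invFun := rot g.symm
  left_inv x := by ext1; simp [rot]
  right_inv x := by ext1; simp [rot]
  continuous_toFun := (g.continuous.comp continuous_subtype_val).subtype_mk _
  continuous_invFun := (g.symm.continuous.comp continuous_subtype_val).subtype_mk _

lemma rot_dist {d : ℕ} (g : E d ≃ₗᵢ[ℝ] E d) (x y : S d) :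
    dist (rot g x) (rot g y) = dist x y := by
  rw [Subtype.dist_eq, Subtype.dist_eq]
  exact g.dist_map _ _

lemma measurable_rot {d : ℕ} (g : E d ≃ₗᵢ[ℝ] E d) : Measurable (rot g) :=
  (rotH g).measurable

lemma measurableEmbedding_rot {d : ℕ} (g : E d ≃ₗᵢ[ℝ] E d) : MeasurableEmbedding (rot g) :=
  (rotH g).measurableEmbedding

theorem rot_mp {d : ℕ} (g : E d ≃ₗᵢ[ℝ] E d) : MeasurePreserving (rot g) (sig d) (sig d) := by
  have hm : Measurable (rot g) := measurable_rot g
  refine ⟨hm, ?_⟩
  have key : (volume : Measure (E d)).toSphere.map (rot g) =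
      (volume : Measure (E d)).toSphere := by
    ext s hs
    rw [Measure.map_apply hm hs, Measure.toSphere_apply' _ (hm hs), Measure.toSphere_apply' _ hs]
    congr 1
    have : (Ioo (0:ℝ) 1 • ((↑) '' (rot g ⁻¹' s) : Set (E d)) : Set (E d)) =
        g ⁻¹' (Ioo (0:ℝ) 1 • ((↑) '' s : Set (E d))) := by
      ext v
      constructor
      · rintro ⟨t, ht, _, ⟨x, hx, rfl⟩, rfl⟩
        refine ⟨t, ht, g x, ⟨rot g x, hx, rfl⟩, ?_⟩
        simp
      · rintro ⟨t, ht, _, ⟨x, hx, rfl⟩, h⟩
        refine ⟨t, ht, g.symm x, ⟨rot g.symm x, ?_, rfl⟩, ?_⟩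
        · have : rot g (rot g.symm x) = x := (rotH g).right_inv x
          rw [mem_preimage, this]
          exact hx
        · apply g.injective
          simpa using h
    rw [this]
    exact (LinearIsometryEquiv.measurePreserving g).measure_preimage_emb
      g.toHomeomorph.measurableEmbedding _
  rw [sig, Measure.map_smul, key]

theorem exists_rot {d : ℕ} (x y : S d) : ∃ g : E d ≃ₗᵢ[ℝ] E d, rot g x = y := by
  refine ⟨(ℝ ∙ ((x : E d) - y))ᗮ.reflection, ?_⟩
  ext1
  exact Submodule.reflection_sub (by simp)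

/-! ### the orthogonal group -/

/-- the orthogonal group -/
abbrev OG (d : ℕ) : Type := unitary (E d →L[ℝ] E d)

instance instContinuousStar_E (d : ℕ) : ContinuousStar (E d →L[ℝ] E d) :=
  ⟨(ContinuousLinearMap.adjoint (𝕜 := ℝ) (E := E d) (F := E d)).continuous⟩

instance compactSpace_OG (d : ℕ) : CompactSpace (OG d) := by
  refine (isCompact_iff_compactSpace (s := (unitary (E d →L[ℝ] E d) : Set (E d →L[ℝ] E d)))).mp ?_
  apply Metric.isCompact_of_isClosed_isBounded
  · exact isClosed_unitary
  · rw [isBounded_iff_forall_norm_le]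
    refine ⟨1, fun u hu => ?_⟩
    apply ContinuousLinearMap.opNorm_le_bound _ zero_le_one
    intro x
    rw [one_mul]
    exact (Unitary.norm_map (⟨u, hu⟩ : unitary (E d →L[ℝ] E d)) x).le

noncomputable instance instMS_OG (d : ℕ) : MeasurableSpace (OG d) := borel _

instance instBS_OG (d : ℕ) : BorelSpace (OG d) := ⟨rfl⟩

/-- the action of the orthogonal group on the sphere -/
noncomputable def act {d : ℕ} (u : OG d) (x : S d) : S d :=
  rot (Unitary.linearIsometryEquiv u) x

lemma act_mul {d : ℕ} (u v : OG d) (x : S d) : act (u * v) x = act u (act v x) := by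
  ext1
  simp only [act, rot, map_mul]
  rfl

lemma act_one {d : ℕ} (x : S d) : act (1 : OG d) x = x := by
  ext1
  simp only [act, rot, map_one]
  rfl

lemma act_eq {d : ℕ} (g : E d ≃ₗᵢ[ℝ] E d) (x : S d) :
    act (Unitary.linearIsometryEquiv.symm g) x = rot g x := by
  simp [act]

lemma continuous_act (d : ℕ) : Continuous (fun p : OG d × S d => act p.1 p.2) := by
  unfold act rot
  refine Continuous.subtype_mk ?_ _
  have h : Continuous (fun p : OG d × S d => ((p.1 : E d →L[ℝ] E d)) (p.2 : E d)) := by
    fun_prop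
  exact h

lemma measurable_act (d : ℕ) : Measurable (fun p : OG d × S d => act p.1 p.2) :=
  (continuous_act d).measurable

/-- normalised Haar measure -/
noncomputable def hm (d : ℕ) : Measure (OG d) := Measure.haarMeasure ⊤

instance (d : ℕ) : IsProbabilityMeasure (hm d) := by
  constructor
  have := Measure.haarMeasure_self (K₀ := (⊤ : TopologicalSpace.PositiveCompacts (OG d)))
  simpa [hm] using this

instance (d : ℕ) : Measure.IsMulLeftInvariant (hm d) := by
  unfold hm; infer_instance

lemma inv_apply_eq {d : ℕ} (ν : Measure (S d)) [IsProbabilityMeasure ν]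
    (hν : ∀ g : E d ≃ₗᵢ[ℝ] E d, ν.map (rot g) = ν) (A : Set (S d)) (hA : MeasurableSet A)
    (x₀ : S d) : ν A = hm d {u : OG d | act u⁻¹ x₀ ∈ A} := by
  set T : Set (OG d × S d) := {p | act p.1⁻¹ p.2 ∈ A} with hT
  have hTm : MeasurableSet T := by
    have : Continuous (fun p : OG d × S d => act p.1⁻¹ p.2) :=
      (continuous_act d).comp ((continuous_fst.inv).prodMk continuous_snd)
    exact this.measurable hA
  have hslice : ∀ x : S d, MeasurableSet {u : OG d | act u⁻¹ x ∈ A} := by
    intro x
    exact measurable_prodMk_right (y := x) hTm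
  have h1 : ((hm d).prod ν) T = ν A := by
    rw [Measure.prod_apply hTm]
    have : ∀ u : OG d, ν (Prod.mk u ⁻¹' T) = ν A := by
      intro u
      have e : Prod.mk u ⁻¹' T = rot (Unitary.linearIsometryEquiv u⁻¹) ⁻¹' A := rfl
      rw [e, ← Measure.map_apply (measurable_rot _) hA, hν]
    simp [this]
  have h2 : ((hm d).prod ν) T = hm d {u : OG d | act u⁻¹ x₀ ∈ A} := by
    rw [Measure.prod_apply_symm hTm]
    have : ∀ x : S d, hm d ((fun u => (u, x)) ⁻¹' T) = hm d {u : OG d | act u⁻¹ x₀ ∈ A} := by
      intro x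
      obtain ⟨g, hg⟩ := exists_rot x₀ x
      set h : OG d := Unitary.linearIsometryEquiv.symm g
      have hx : act h x₀ = x := by rw [act_eq]; exact hg
      have e : (fun u => (u, x)) ⁻¹' T = (fun u => h⁻¹ * u) ⁻¹' {u : OG d | act u⁻¹ x₀ ∈ A} := by
        ext u
        simp only [hT, mem_preimage, mem_ofPred_eq, mul_inv_rev, inv_inv]
        rw [act_mul, hx]
      rw [e]
      exact measure_preimage_mul (hm d) h⁻¹ _
    simp [this]
  rw [← h1, h2]

theorem inv_unique {d : ℕ} (ν : Measure (S d)) [IsProbabilityMeasure ν]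
    (hν : ∀ g : E d ≃ₗᵢ[ℝ] E d, ν.map (rot g) = ν) : ν = sig d := by
  have := isProbabilityMeasure_sig d
  have x₀ : S d := ⟨EuclideanSpace.single 0 (1:ℝ), by simp⟩
  ext A hA
  rw [inv_apply_eq ν hν A hA x₀, inv_apply_eq (sig d) (fun g => (rot_mp g).map_eq) A hA x₀]

/-- random linear isometries with uniform one-point marginals (Haar measure of the compact
group `O(d+1)`, e.g. `unitary (E d →L[ℝ] E d)`) -/
theorem exists_haar (d : ℕ) : ∃ (Ω : Type) (_ : MeasurableSpace Ω) (μ : Measure Ω)
    (a : Ω → (E d ≃ₗᵢ[ℝ] E d)), IsProbabilityMeasure μ ∧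
      Measurable (fun p : Ω × S d => rot (a p.1) p.2) ∧
      ∀ x : S d, μ.map (fun ω => rot (a ω) x) = sig d := by
  refine ⟨OG d, inferInstance, hm d, fun u => Unitary.linearIsometryEquiv u, inferInstance,
    measurable_act d, fun x => ?_⟩
  have hmx : Measurable (fun u : OG d => act u x) :=
    (measurable_act d).comp (measurable_prodMk_right (y := x))
  change (hm d).map (fun u => act u x) = sig d
  have : IsProbabilityMeasure ((hm d).map (fun u => act u x)) :=
    Measure.isProbabilityMeasure_map hmx.aemeasurable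
  apply inv_unique
  intro g
  set h : OG d := Unitary.linearIsometryEquiv.symm g
  rw [Measure.map_map (measurable_rot g) hmx]
  have e : (rot g ∘ fun u : OG d => act u x) = (fun u : OG d => act u x) ∘ (fun u => h * u) := by
    funext u
    simp only [Function.comp]
    rw [act_mul, act_eq]
  rw [e, ← Measure.map_map hmx (measurable_const_mul h), map_mul_left_eq_self]

theorem zonal {d : ℕ} (f : ℝ → ℝ) (x : S d) :
    ∫ y, f (dist x y) ∂(sig d) = avg2 (fun x y : S d => f (dist x y)) := by
  have := isProbabilityMeasure_sig d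
  have key : ∀ z : S d, ∫ y, f (dist z y) ∂(sig d) = ∫ y, f (dist x y) ∂(sig d) := by
    intro z
    obtain ⟨g, hg⟩ := exists_rot x z
    rw [← (rot_mp g).integral_comp (measurableEmbedding_rot g)]
    congr 1
    ext y
    rw [← hg, rot_dist]
  unfold avg2
  simp [key]

end Helper23.Riesz
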